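import Pool.Agent.Helper597_torsymp.AffInf

/-!
# MP_d0c42b_gt, Q1 for `T⁴`: symplectomorphisms with infinitely many affine symmetries

Let `F` be a lift of a symplectomorphism of `T⁴`, acting on the lattice by `A`. If there are
infinitely many affine automorphisms `g : x ↦ M x + v` of the torus `ℝ⁴ / ℤ⁴` such that `F g F⁻¹`
is again affine, then `F` is symplectically isotopic to the linear symplectomorphism `A`. For
instance this holds if `F g F⁻¹` is affine for one `g` of infinite order, or if `F` commutes with
infinitely many translations. The automorphisms `g` need not be symplectic or ergodic.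
-/

set_option autoImplicit false

noncomputable section

namespace Pool.Agent.Results.MP_d0c42b_gt.AffineSymmetries

open Pool.Agent.Helper597_torsymp

/-- A symplectomorphism of `T⁴` which conjugates infinitely many affine automorphisms of the torus
to affine maps is symplectically isotopic to its linear part. (The translation part of an affine
automorphism of the torus is normalised by `v ∈ [0, 1)⁴`.) -/
theorem result (A : Matrix (Fin 2 ⊕ Fin 2) (Fin 2 ⊕ Fin 2) ℤ) (F : V 2 → V 2)
    (hF : IsTorusSymp A F)
    (hinf : Set.Infinite {g : Matrix (Fin 2 ⊕ Fin 2) (Fin 2 ⊕ Fin 2) ℤ × V 2 |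
      IsUnit g.1.det ∧ (∀ β, g.2 β ∈ Set.Ico (0 : ℝ) 1) ∧
        ∃ (M' : Matrix (Fin 2 ⊕ Fin 2) (Fin 2 ⊕ Fin 2) ℤ) (v' : V 2), ∀ x,
          F ((g.1.map (Int.cast : ℤ → ℝ)).mulVec x + g.2) =
            (M'.map (Int.cast : ℤ → ℝ)).mulVec (F x) + v'}) :
    SymplecticallyIsotopic A (fun x => (A.map (Int.cast : ℤ → ℝ)).mulVec x) F := by
  obtain ⟨w, hw, hwF⟩ := exists_line_of_infinite hF hinf
  exact isotopic_of_line_int hF hw hwF

end Pool.Agent.Results.MP_d0c42b_gt.AffineSymmetries
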