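import Pool.Agent.Helper597_torsymp.Sys

/-!
# MP_d0c42b_gt, Q1: symplectomorphisms and systems of linear foliations

Let `P₁, …, P_r` be pairwise orthogonal linear subspaces of the symplectic vector space `ℝ^{2n}`,
such that the symplectic quotients `P_i / (P_i ∩ P_i^ω)` and `S^ω / (S ∩ S^ω)`, where
`S = P₁ + … + P_r`, have dimension at most two. Then two symplectomorphisms of `T^{2n}` with the
same action on the lattice which map each of the linear foliations by the translates of the `P_i`
to the same foliation are symplectically isotopic.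

For `n = 2` and `r = 1` the conditions on `P = P₁` say that `P ≠ 0, ℝ⁴`. In general the conditions
hold, for instance, for `r = 1` and `P` isotropic or coisotropic, with isotropic part of dimension
at least `n - 1`, and for a decomposition of `ℝ^{2n}` into orthogonal symplectic planes.
-/

set_option autoImplicit false

noncomputable section

namespace Pool.Agent.Results.MP_d0c42b_gt.LinearFoliations

open Pool.Agent.Helper597_torsymp

/-- the orthogonal complement of a linear subspace with respect to the symplectic form `om` -/
def orthC {n : ℕ} (P : Submodule ℝ (V n)) : Submodule ℝ (V n) where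
  carrier := {v | ∀ p ∈ P, om p v = 0}
  add_mem' := fun {a b} ha hb p hp => by rw [om_add_right, ha p hp, hb p hp, add_zero]
  zero_mem' := fun p _ => by simp [om]
  smul_mem' := fun c a ha p hp => by rw [om_smul_right, ha p hp, mul_zero]

theorem orthC_eq {n : ℕ} (P : Submodule ℝ (V n)) : orthC P = orth P := by
  ext v
  rw [mem_orth]
  rfl

/-- Two symplectomorphisms of `T^{2n}` with the same action `A` on the lattice, which map each of
the linear foliations `P i` to the same foliation, are symplectically isotopic. -/
theorem result (n r : ℕ) (A : Matrix (Fin n ⊕ Fin n) (Fin n ⊕ Fin n) ℤ) (F₀ F₁ : V n → V n)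
    (h₀ : IsTorusSymp A F₀) (h₁ : IsTorusSymp A F₁) (P : Fin r → Submodule ℝ (V n))
    (hor : ∀ i j, i ≠ j → P i ≤ orthC (P j))
    (hP : ∀ i, Module.finrank ℝ (P i) ≤ Module.finrank ℝ ↥(P i ⊓ orthC (P i)) + 2)
    (hS : Module.finrank ℝ (orthC (⨆ i, P i)) ≤
      Module.finrank ℝ ↥((⨆ i, P i) ⊓ orthC (⨆ i, P i)) + 2)
    (h : ∀ i x y, F₀ x = F₁ y → (P i).map (fderiv ℝ F₀ x : V n →ₗ[ℝ] V n) =
      (P i).map (fderiv ℝ F₁ y : V n →ₗ[ℝ] V n)) :
    SymplecticallyIsotopic A F₀ F₁ := by
  simp only [orthC_eq] at hor hP hS
  exact isotopic_of_relative_system h₀ h₁ hor hP hS h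

end Pool.Agent.Results.MP_d0c42b_gt.LinearFoliations
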