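import Pool.Agent.Helper597_mos.Pair

/-!
# MP_d0c42b_gt, Q1: symplectic isotopy on the torus and mean oscillation of the derivative

Let `F₀`, `F₁` be lifts of symplectomorphisms of `T^{2n} = ℝ^{2n} / ℤ^{2n}` with the same action `A`
on the lattice. For a linear map `T` of `ℝ^{2n}` let `mean F T x` be the mean of the derivative of
`F` over the parallelepiped `x + T [0, 1]^{2n}`. A linear map `M` is called *unopposed* if none of
the forms `(1 - ρ) ω + ρ M^* ω`, `0 ≤ ρ ≤ 1`, is degenerate, that is, if the linear map which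
represents `M^* ω` with respect to `ω` has no real eigenvalue `≤ 0`.

1. Let `T s`, `0 ≤ s ≤ 1`, be a smooth path of linear maps with `T 0 = 0`. If all the means
   `mean F₀ (T s) x`, `mean F₁ (T s) x` and `(1 - t) mean F₀ (T 1) x + t mean F₁ (T 1) x`
   are unopposed, then `F₀` and `F₁` are symplectically isotopic.
2. Small mean oscillation: if the mean over each cube of side at most one of `‖DF - M‖²`, where `M`
   is the mean of the derivative `DF` over the cube and the norm is the Frobenius norm, is less than
   `2`, then `F` is symplectically isotopic to the linear map `A`. (No bound on `DF` is needed.)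
3. Pinching: if `F` has Lipschitz constant `Λ` for the euclidean metric and
   `n (n + 1) (Λ² - Λ⁻²) < 3`, then `F` is symplectically isotopic to the linear map `A`.

In 2. and 3. the norm, the metric in the target torus, may be replaced by its pull back by a linear
symplectic map `S` of `ℝ^{2n}`, for instance by `S = A⁻¹`.

The maps are not assumed to be `C¹`-close or `C⁰`-close to a linear map, nor to have a generating
function: under 2. and 3. the derivative may rotate by any angle (like that of
`z ↦ exp (i ε log |z|) z`, smoothed near `0`).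

Proof. Move `F₀` through the means `x ↦ ∫ F₀ (x + T s y) dy`, which are not symplectic, and correct
the resulting family by Moser's method; the means of the forms are computed by the covariance.
-/

set_option autoImplicit false

noncomputable section

namespace Pool.Agent.Results.MP_d0c42b_gt.MeanOscillation

open Pool.Agent.Helper597_torsymp MeasureTheory
open scoped ContDiff

/-- the mean of the derivative of `F` over the parallelepiped `x + T [0, 1]^{2n}` -/
def mean {n : ℕ} (F : V n → V n) (T : V n →L[ℝ] V n) (x : V n) : V n →L[ℝ] V n :=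
  ∫ y in Set.Icc (0 : V n) 1, fderiv ℝ F (x + T y)

/-- none of the forms `(1 - ρ) ω + ρ M^* ω`, `0 ≤ ρ ≤ 1`, is degenerate -/
def Unopposed {n : ℕ} (M : V n →L[ℝ] V n) : Prop :=
  ∀ ρ ∈ Set.Icc (0 : ℝ) 1, ∀ u, (∀ v, (1 - ρ) * om u v + ρ * om (M u) (M v) = 0) → u = 0

/-- the homothety with factor `s` -/
def homothety {n : ℕ} (s : ℝ) : V n →L[ℝ] V n := s • ContinuousLinearMap.id ℝ (V n)

/-- the square of the Frobenius norm of a linear map -/
def frobSq {n : ℕ} (L : V n →L[ℝ] V n) : ℝ := ∑ j, ∑ i, L (Pi.single j 1) i ^ 2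

/-- the square of the euclidean norm -/
def normSq {n : ℕ} (v : V n) : ℝ := ∑ i, v i ^ 2

/-- all means of the derivatives of `F₀` and `F₁` over the parallelepipeds `x + T s [0, 1]^{2n}`,
`0 ≤ s ≤ 1`, and, for `s = 1`, also their convex combinations, are unopposed -/
def UnopposedMeans {n : ℕ} (T : ℝ → V n →L[ℝ] V n) (F₀ F₁ : V n → V n) : Prop :=
  (∀ s ∈ Set.Icc (0 : ℝ) 1, ∀ x, Unopposed (mean F₀ (T s) x) ∧ Unopposed (mean F₁ (T s) x)) ∧
    ∀ t ∈ Set.Icc (0 : ℝ) 1, ∀ x, Unopposed ((1 - t) • mean F₀ (T 1) x + t • mean F₁ (T 1) x)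

/-- the mean oscillation of `S DF`, in the Frobenius norm, is less than `√2` on all cubes with sides
at most one: the mean over the cube of `‖S (DF - M)‖²` is less than two, where `M` is the mean of
`DF` over the cube -/
def SmallOscillation {n : ℕ} (S : V n →L[ℝ] V n) (F : V n → V n) : Prop :=
  ∀ x, ∀ s ∈ Set.Ioc (0 : ℝ) 1, ∫ y in Set.Icc (0 : V n) 1,
    frobSq (S.comp (fderiv ℝ F (x + s • y) - mean F (homothety s) x)) < 2

/-- `F` has Lipschitz constant `Λ`, for the metric `|S v|` in the target -/
def Pinched {n : ℕ} (S : V n →L[ℝ] V n) (Λ : ℝ) (F : V n → V n) : Prop :=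
  ∀ x y, normSq (S (F x - F y)) ≤ Λ ^ 2 * normSq (x - y)

/-- the linear symplectomorphism with the matrix `A` -/
def linearMap {n : ℕ} (A : Matrix (Fin n ⊕ Fin n) (Fin n ⊕ Fin n) ℤ) (x : V n) : V n :=
  (A.map (Int.cast : ℤ → ℝ)).mulVec x

theorem frobSq_eq {n : ℕ} (L : V n →L[ℝ] V n) : frobSq L = Helper597_mos.frob L := by
  unfold frobSq Helper597_mos.frob Helper597_mos.ip bv
  simp only [sq]

theorem normSq_eq {n : ℕ} (v : V n) : normSq v = Helper597_mos.ip v v := by
  unfold normSq Helper597_mos.ip
  simp only [sq]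

/-- A criterion for symplectic isotopy in terms of the means of the derivatives over
parallelepipeds, its form for maps with small mean oscillation, and the resulting pinching
theorem. -/
theorem result (n : ℕ) (A : Matrix (Fin n ⊕ Fin n) (Fin n ⊕ Fin n) ℤ) (F F₁ : V n → V n)
    (hF : IsTorusSymp A F) (hF₁ : IsTorusSymp A F₁) :
    (∀ T : ℝ → V n →L[ℝ] V n, ContDiff ℝ ∞ T → T 0 = 0 → UnopposedMeans T F F₁ →
      SymplecticallyIsotopic A F F₁) ∧
    ∀ S : V n →L[ℝ] V n, (∀ u v, om (S u) (S v) = om u v) →
      (SmallOscillation S F → SymplecticallyIsotopic A (linearMap A) F) ∧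
      ∀ Λ : ℝ, 0 < Λ → (n : ℝ) * (n + 1) * (Λ ^ 2 - (Λ ^ 2)⁻¹) < 3 → Pinched S Λ F →
        SymplecticallyIsotopic A (linearMap A) F := by
  refine ⟨?_, fun S hS => ⟨?_, ?_⟩⟩
  · intro T hT hT0 h
    exact Helper597_mos.isotopic_of_means_pair hF hF₁ hT hT0 (fun s hs x => (h.1 s hs x).1)
      (fun s hs x => (h.1 s hs x).2) h.2
  · intro ho
    refine Helper597_mos.isotopic_of_osc hF hS fun x s hs => ?_
    have h := ho x s hs
    simp only [frobSq_eq] at h
    exact h
  · intro Λ hΛ hp hL
    refine Helper597_mos.isotopic_of_pinched hF hS (c := Λ ^ 2) (by positivity) (fun x y => ?_) hp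
    have h := hL x y
    simp only [normSq_eq] at h
    exact h

end Pool.Agent.Results.MP_d0c42b_gt.MeanOscillation
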