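import Pool.Agent.Helper597_torsymp.Crit

/-!
# MP_d0c42b_gt, Q1: symplectic isotopy on the torus and chains of unopposed symplectomorphisms

Let `φ₀`, `φ₁` be symplectomorphisms of the standard torus `T^{2n} = ℝ^{2n} / ℤ^{2n}` with the same
action `A` on the lattice, with lifts `F₀`, `F₁`.

* `φ₀`, `φ₁` are *unopposed* if no nonzero tangent vector `v` is mapped to opposite directions by
  them: `DF₁(x) v = - r DF₀(x) v`, `r > 0`, only for `v = 0`. It is enough that
  `‖DF₁(x) DF₀(x)⁻¹ - 1‖ < 2` for all `x`, in any operator norm.
* More generally `φ₀`, `φ₁` are *linked* if there is a smooth path `Q s`, `0 ≤ s ≤ 1`, of linear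
  maps with `Q 0 = 0`, `ω(Q s u, v) + ω(u, Q s v) = c s ω(u, v)`, `c 0 = 0`, `c 1 = 1`, such that
  all linear maps `DF₀(x) + Q s (DF₁(x) - DF₀(x))` are injective. (These are generating functions
  whose type varies with `s`; unopposed maps are linked by `Q s = s / 2`. If `Q s = s P`, where `P`
  is the projection to the second factor of `ℝ^{2n} = ℝⁿ × ℝⁿ`, and `F₀ = id`, `F₁ = (X, Y)`, the
  condition is that no `n × n` matrix `∂Y/∂y` has a real eigenvalue `≤ 0`.)

Linked symplectomorphisms are symplectically isotopic, and two symplectomorphisms are symplectically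
isotopic if and only if they are joined by a finite chain of symplectomorphisms, each of which is
linked to (or, equivalently for the existence of a chain, unopposed to) the next one.

In particular every symplectomorphism which is linked or unopposed to a linear symplectomorphism `Ψ`
is symplectically isotopic to `Ψ`.
-/

set_option autoImplicit false

noncomputable section

namespace Pool.Agent.Results.MP_d0c42b_gt.UnopposedChains

open Pool.Agent.Helper597_torsymp

/-- For two symplectomorphisms of the torus with the same action on the lattice the following are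
equivalent: they are symplectically isotopic; they are joined by a finite chain of
symplectomorphisms in which neighbours are unopposed; they are joined by a finite chain of
symplectomorphisms in which neighbours are linked. -/
theorem result (n : ℕ) (A : Matrix (Fin n ⊕ Fin n) (Fin n ⊕ Fin n) ℤ) (F₀ F₁ : V n → V n)
    (h₀ : IsTorusSymp A F₀) :
    [SymplecticallyIsotopic A F₀ F₁,
      Relation.ReflTransGen (fun φ ψ => IsTorusSymp A φ ∧ IsTorusSymp A ψ ∧ Unopposed φ ψ) F₀ F₁,
      Relation.ReflTransGen (fun φ ψ => IsTorusSymp A φ ∧ IsTorusSymp A ψ ∧ Linked φ ψ)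
        F₀ F₁].TFAE := by
  tfae_have 1 → 2 := chain_of_isotopic
  tfae_have 2 → 3 := Relation.ReflTransGen.mono
    (fun φ ψ (h : IsTorusSymp A φ ∧ IsTorusSymp A ψ ∧ Unopposed φ ψ) =>
      (⟨h.1, h.2.1, linked_of_unopposed h.1 h.2.2⟩ :
        IsTorusSymp A φ ∧ IsTorusSymp A ψ ∧ Linked φ ψ)) F₀ F₁
  tfae_have 3 → 1 := (isotopic_iff_chain h₀).2
  tfae_finish

end Pool.Agent.Results.MP_d0c42b_gt.UnopposedChains
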